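import Pool.Agent.W2helper9.OP.Stm

/-!
# Project OP, piece INT

An element of the algebraic closure is integral at almost all places.
-/

set_option autoImplicit false

open IsDedekindDomain NumberField

namespace Pool.Agent.W2helper93.OP

open Pool.Agent.W2helper9.OP

theorem p_int : P_INT := by
  intro K _ _ z
  have halg0 : IsAlgebraic K z := Algebra.IsAlgebraic.isAlgebraic z
  have halg : IsAlgebraic (𝓞 K) z := (IsFractionRing.isAlgebraic_iff (𝓞 K) K
    (AlgebraicClosure K)).2 halg0
  obtain ⟨b, hb0, hb⟩ := halg.exists_integral_multiple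
  have hw : IsIntegral (𝓞 K) (algebraMap (𝓞 K) (AlgebraicClosure K) b * z) := by
    have h0 := Algebra.smul_def b z
    rw [← h0]
    exact hb
  clear hb
  have hspan : Ideal.span {b} ≠ (0 : Ideal (𝓞 K)) := by
    rw [Ne, Ideal.zero_eq_bot, Ideal.span_singleton_eq_bot]
    exact hb0
  refine (Ideal.finite_factors hspan).subset ?_
  rintro v ⟨A, hA, hz⟩
  by_contra hv
  apply hz
  -- `b` is a unit at `v`
  have hvb : v.valuation K (algebraMap (𝓞 K) K b) = 1 := by
    refine le_antisymm (v.valuation_le_one b) (not_lt.1 fun h => hv ?_)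
    exact (v.valuation_lt_one_iff_dvd b).1 h
  have hbK : algebraMap (𝓞 K) K b ≠ 0 := by
    intro h
    rw [h, map_zero] at hvb
    exact zero_ne_one hvb
  have hinv : algebraMap K (AlgebraicClosure K) (algebraMap (𝓞 K) K b)⁻¹ ∈ A := by
    rw [hA, map_inv₀, hvb, inv_one]
  have hO : ∀ a : 𝓞 K, algebraMap (𝓞 K) (AlgebraicClosure K) a ∈ A := by
    intro a
    rw [IsScalarTower.algebraMap_apply (𝓞 K) K (AlgebraicClosure K), hA]
    exact v.valuation_le_one a
  have hbz : algebraMap (𝓞 K) (AlgebraicClosure K) b * z ∈ A := by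
    let φ : 𝓞 K →+* A := (algebraMap (𝓞 K) (AlgebraicClosure K)).codRestrict A.toSubring hO
    obtain ⟨p, hp, hpz⟩ := hw
    have h1 : IsIntegral A (algebraMap (𝓞 K) (AlgebraicClosure K) b * z) := by
      refine ⟨p.map φ, hp.map φ, ?_⟩
      rw [Polynomial.eval₂_map]
      exact hpz
    obtain ⟨y, hy⟩ := IsIntegrallyClosed.isIntegral_iff.1 h1
    rw [← hy]
    exact y.2
  have h2 : algebraMap K (AlgebraicClosure K) (algebraMap (𝓞 K) K b)⁻¹ *
      (algebraMap (𝓞 K) (AlgebraicClosure K) b * z) = z := by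
    rw [IsScalarTower.algebraMap_apply (𝓞 K) K (AlgebraicClosure K), ← mul_assoc,
      ← map_mul, inv_mul_cancel₀ hbK, map_one, one_mul]
  rw [← h2]
  exact A.mul_mem _ _ hinv hbz

end Pool.Agent.W2helper93.OP
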